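import Mathlib
import Pool.Graph.R_seed8.Results.MP_696765_co.IrreducibleUnbounded

/-!
Products of irreducible generating sets, and the labelled tower: a finite group with an
irreducible generating set, labelled by the elements of a finite set `L`, such that every
colouring with `C` colours has one colour class which contains an edge of every label.
-/

set_option autoImplicit false

namespace Pool.Agent.KS6_67.Irr

open Pool.Agent.Results.MP_696765_co.IrreducibleUnbounded

theorem adj_mul {G : Type*} [Group G] {H : Set G} (h1 : (1 : G) ∉ H) {h : G} (hh : h ∈ H)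
    (v : G) : (CayleyGraph H).Adj v (h * v) := by
  refine ⟨?_, h, hh, Or.inl rfl⟩
  intro heq
  have : h = 1 := by
    have := heq.symm
    rwa [mul_eq_right] at this
  exact h1 (this ▸ hh)

/-- The union of the two generating sets in the direct product. -/
def prodSet {G K : Type*} [Group G] [Group K] (H : Set G) (S : Set K) : Set (G × K) :=
  (fun h => (h, (1 : K))) '' H ∪ (fun s => ((1 : G), s)) '' S

theorem left_mem {G K : Type*} [Group G] [Group K] {H : Set G} {T : Set (G × K)}
    (hT : (fun h => (h, (1 : K))) '' H ⊆ T) {g : G} (hg : g ∈ Subgroup.closure H) :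
    (g, (1 : K)) ∈ Subgroup.closure T := by
  have h1 : (g, (1 : K)) ∈ (Subgroup.closure H).map (MonoidHom.inl G K) :=
    ⟨g, hg, rfl⟩
  rw [MonoidHom.map_closure] at h1
  exact Subgroup.closure_mono hT h1

theorem right_mem {G K : Type*} [Group G] [Group K] {S : Set K} {T : Set (G × K)}
    (hT : (fun s => ((1 : G), s)) '' S ⊆ T) {k : K} (hk : k ∈ Subgroup.closure S) :
    ((1 : G), k) ∈ Subgroup.closure T := by
  have h1 : ((1 : G), k) ∈ (Subgroup.closure S).map (MonoidHom.inr G K) :=
    ⟨k, hk, rfl⟩
  rw [MonoidHom.map_closure] at h1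
  exact Subgroup.closure_mono hT h1

theorem prod_irred {G K : Type*} [Group G] [Group K] {H : Set G} {S : Set K}
    (hH : IsIrreducibleGeneratingSet H) (hS : IsIrreducibleGeneratingSet S) :
    IsIrreducibleGeneratingSet (prodSet H S) := by
  constructor
  · rw [eq_top_iff]
    rintro ⟨a, b⟩ -
    have ha := left_mem (K := K) (T := prodSet H S) Set.subset_union_left
      (show a ∈ Subgroup.closure H by rw [hH.1]; trivial)
    have hb := right_mem (G := G) (T := prodSet H S) Set.subset_union_right
      (show b ∈ Subgroup.closure S by rw [hS.1]; trivial)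
    have := Subgroup.mul_mem _ ha hb
    simpa using this
  · rintro x (⟨h, hh, rfl⟩ | ⟨s, hs, rfl⟩) htop
    · apply hH.2 h hh
      have hle : Subgroup.closure (prodSet H S \ {(h, (1 : K))}) ≤
          (Subgroup.closure (H \ {h})).comap (MonoidHom.fst G K) := by
        rw [Subgroup.closure_le]
        rintro y ⟨⟨h', hh', rfl⟩ | ⟨s', hs', rfl⟩, hne⟩
        · apply Subgroup.subset_closure
          refine ⟨hh', ?_⟩
          intro heq
          apply hne
          have heq' : h' = h := heq
          show (h', (1 : K)) = (h, 1)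
          rw [heq']
        · show (1 : G) ∈ Subgroup.closure (H \ {h})
          exact Subgroup.one_mem _
      rw [eq_top_iff]
      intro g _
      have : (g, (1 : K)) ∈ Subgroup.closure (prodSet H S \ {(h, (1 : K))}) := by
        rw [htop]; trivial
      exact hle this
    · apply hS.2 s hs
      have hle : Subgroup.closure (prodSet H S \ {((1 : G), s)}) ≤
          (Subgroup.closure (S \ {s})).comap (MonoidHom.snd G K) := by
        rw [Subgroup.closure_le]
        rintro y ⟨⟨h', hh', rfl⟩ | ⟨s', hs', rfl⟩, hne⟩
        · show (1 : K) ∈ Subgroup.closure (S \ {s})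
          exact Subgroup.one_mem _
        · apply Subgroup.subset_closure
          refine ⟨hs', ?_⟩
          intro heq
          apply hne
          have heq' : s' = s := heq
          show ((1 : G), s') = (1, s)
          rw [heq']
      rw [eq_top_iff]
      intro k _
      have : ((1 : G), k) ∈ Subgroup.closure (prodSet H S \ {((1 : G), s)}) := by
        rw [htop]; trivial
      exact hle this

/-- The cyclic group of order six with its generators of orders two and three. -/
def six : Set (Multiplicative (ZMod 6)) := {Multiplicative.ofAdd 3, Multiplicative.ofAdd 2}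

theorem six_irred : IsIrreducibleGeneratingSet six := by
  constructor
  · rw [eq_top_iff]
    intro x _
    have h3 : (Multiplicative.ofAdd 3 : Multiplicative (ZMod 6)) ∈ Subgroup.closure six :=
      Subgroup.subset_closure (Or.inl rfl)
    have h2 : (Multiplicative.ofAdd 2 : Multiplicative (ZMod 6)) ∈ Subgroup.closure six :=
      Subgroup.subset_closure (Or.inr rfl)
    have h1 : (Multiplicative.ofAdd 1 : Multiplicative (ZMod 6)) ∈ Subgroup.closure six := by
      have := Subgroup.mul_mem _ h3 (Subgroup.inv_mem _ h2)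
      have e : (Multiplicative.ofAdd 3 : Multiplicative (ZMod 6)) * (Multiplicative.ofAdd 2)⁻¹ =
          Multiplicative.ofAdd 1 := by decide
      rwa [e] at this
    have hx : ∀ x : Multiplicative (ZMod 6), x =
        (Multiplicative.ofAdd 1 : Multiplicative (ZMod 6)) ^ (Multiplicative.toAdd x).val := by
      decide
    rw [hx x]
    exact Subgroup.pow_mem _ h1 _
  · rintro x (rfl | rfl) htop
    · have hle : Subgroup.closure (six \ {Multiplicative.ofAdd 3}) ≤
          (powMonoidHom 3 : Multiplicative (ZMod 6) →* Multiplicative (ZMod 6)).ker := by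
        rw [Subgroup.closure_le]
        rintro y ⟨rfl | rfl, hne⟩
        · exact absurd rfl hne
        · show (Multiplicative.ofAdd 2 : Multiplicative (ZMod 6)) ^ 3 = 1
          decide
      rw [htop] at hle
      have := hle (Subgroup.mem_top (Multiplicative.ofAdd 1))
      have h' : (Multiplicative.ofAdd 1 : Multiplicative (ZMod 6)) ^ 3 = 1 := this
      exact absurd h' (by decide)
    · have hle : Subgroup.closure (six \ {Multiplicative.ofAdd 2}) ≤
          (powMonoidHom 2 : Multiplicative (ZMod 6) →* Multiplicative (ZMod 6)).ker := by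
        rw [Subgroup.closure_le]
        rintro y ⟨rfl | rfl, hne⟩
        · show (Multiplicative.ofAdd 3 : Multiplicative (ZMod 6)) ^ 2 = 1
          decide
        · exact absurd rfl hne
      rw [htop] at hle
      have := hle (Subgroup.mem_top (Multiplicative.ofAdd 1))
      have h' : (Multiplicative.ofAdd 1 : Multiplicative (ZMod 6)) ^ 2 = 1 := this
      exact absurd h' (by decide)

/-- Edges of every label in one colour class. -/
def Rich {P I : Type} [Group P] (H : Set P) (lab : P → I) (L : List I) (C : ℕ) : Prop :=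
  ∀ c : P → Fin C, ∃ t, (∃ x, c x = t) ∧
    ∀ i ∈ L, ∃ x, ∃ h ∈ H, lab h = i ∧ c x = t ∧ c (h * x) = t

theorem tower {I : Type} [DecidableEq I] [Inhabited I] (C : ℕ) (L : List I) :
    ∃ (P : Type) (_ : Group P) (_ : Finite P) (H : Set P) (lab : P → I),
      IsIrreducibleGeneratingSet H ∧ (∀ h ∈ H, lab h ∈ L) ∧
      (∀ i ∈ L, (∃ a ∈ H, lab a = i ∧ a ^ 2 = 1) ∧ ∃ a ∈ H, lab a = i ∧ a ^ 3 = 1) ∧
      Rich H lab L C := by
  classical
  induction L with
  | nil =>
    refine ⟨Unit, inferInstance, inferInstance, ∅, fun _ => default, ⟨?_, ?_⟩, ?_, ?_, ?_⟩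
    · exact Subsingleton.elim _ _
    · intro h hh
      exact absurd hh (Set.notMem_empty h)
    · intro h hh
      exact absurd hh (Set.notMem_empty h)
    · intro i hi
      simp at hi
    · intro c
      refine ⟨c (), ⟨(), rfl⟩, ?_⟩
      intro i hi
      simp at hi
  | cons i L ih =>
    obtain ⟨P, _, hfin, H, lab, hirr, hlab, hord, hrich⟩ := ih
    have : Fintype P := Fintype.ofFinite P
    obtain ⟨G, _, _, HG, hG, hcol⟩ := main (Fintype.card (P → Fin C))
    let Q := G × Multiplicative (ZMod 6)
    let HQ : Set Q := prodSet HG six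
    have hQ : IsIrreducibleGeneratingSet HQ := prod_irred hG six_irred
    have hQ1 : (1 : Q) ∉ HQ := one_notMem_of_irreducible hQ
    have hP1 : (1 : P) ∉ H := one_notMem_of_irreducible hirr
    let H' : Set (P × Q) := prodSet H HQ
    let lab' : P × Q → I := fun x => if x.2 = 1 then lab x.1 else i
    have hl1 : ∀ h, lab' (h, 1) = lab h := fun h => if_pos rfl
    have hl2 : ∀ q ∈ HQ, lab' (1, q) = i := by
      intro q hq
      apply if_neg
      rintro h
      have : q = 1 := h
      exact hQ1 (this ▸ hq)
    refine ⟨P × Q, inferInstance, inferInstance, H', lab', prod_irred hirr hQ, ?_, ?_, ?_⟩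
    · rintro x (⟨h, hh, rfl⟩ | ⟨q, hq, rfl⟩)
      · show lab' (h, 1) ∈ _
        rw [hl1]
        exact List.mem_cons_of_mem _ (hlab h hh)
      · show lab' (1, q) ∈ _
        rw [hl2 q hq]
        exact List.mem_cons_self
    · intro j hj
      rcases List.mem_cons.1 hj with rfl | hj
      · have m3 : ((1 : G), (Multiplicative.ofAdd 3 : Multiplicative (ZMod 6))) ∈ HQ :=
          Or.inr ⟨_, Or.inl rfl, rfl⟩
        have m2 : ((1 : G), (Multiplicative.ofAdd 2 : Multiplicative (ZMod 6))) ∈ HQ :=
          Or.inr ⟨_, Or.inr rfl, rfl⟩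
        refine ⟨⟨(1, (1, Multiplicative.ofAdd 3)), Or.inr ⟨_, m3, rfl⟩, hl2 _ m3, ?_⟩,
          ⟨(1, (1, Multiplicative.ofAdd 2)), Or.inr ⟨_, m2, rfl⟩, hl2 _ m2, ?_⟩⟩
        · refine Prod.ext (one_pow _) (Prod.ext (one_pow _) ?_)
          show (Multiplicative.ofAdd 3 : Multiplicative (ZMod 6)) ^ 2 = 1
          decide
        · refine Prod.ext (one_pow _) (Prod.ext (one_pow _) ?_)
          show (Multiplicative.ofAdd 2 : Multiplicative (ZMod 6)) ^ 3 = 1
          decide
      · obtain ⟨⟨a, ha, ha1, ha2⟩, b, hb, hb1, hb2⟩ := hord j hj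
        refine ⟨⟨(a, 1), Or.inl ⟨_, ha, rfl⟩, (hl1 a).trans ha1, ?_⟩,
          ⟨(b, 1), Or.inl ⟨_, hb, rfl⟩, (hl1 b).trans hb1, ?_⟩⟩
        · rw [Prod.pow_mk, ha2, one_pow]; rfl
        · rw [Prod.pow_mk, hb2, one_pow]; rfl
    · intro c
      -- two adjacent vertices of `Q` over which the colouring is the same
      have key : ∃ y : Q, ∃ h ∈ HQ, (fun x : P => c (x, y)) = fun x : P => c (x, h * y) := by
        by_contra hno
        push Not at hno
        apply hcol
        let c' : (CayleyGraph HG).Coloring (P → Fin C) :=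
          SimpleGraph.Coloring.mk (fun g x => c (x, (g, 1))) (by
            rintro g g' ⟨-, h, hh, h2 | h2⟩ heq
            · apply hno (g, 1) (h, 1) (Or.inl ⟨h, hh, rfl⟩)
              rw [h2] at heq
              rw [Prod.mk_mul_mk, mul_one]
              exact heq
            · apply hno (g', 1) (h, 1) (Or.inl ⟨h, hh, rfl⟩)
              rw [h2] at heq
              rw [Prod.mk_mul_mk, mul_one]
              exact heq.symm)
        exact c'.colorable
      obtain ⟨y, h, hh, hy⟩ := key
      obtain ⟨t, ⟨x0, hx0⟩, ht⟩ := hrich (fun x => c (x, y))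
      refine ⟨t, ⟨(x0, y), hx0⟩, ?_⟩
      intro j hj
      rcases List.mem_cons.1 hj with rfl | hj
      · refine ⟨(x0, y), (1, h), Or.inr ⟨h, hh, rfl⟩, hl2 h hh, hx0, ?_⟩
        have hx1 : c (x0, y) = c (x0, h * y) := congrFun hy x0
        have hx0' : c (x0, y) = t := hx0
        rw [Prod.mk_mul_mk, one_mul, ← hx1]
        exact hx0'
      · obtain ⟨x, h', hh', hl, hx, hx'⟩ := ht j hj
        refine ⟨(x, y), (h', 1), Or.inl ⟨h', hh', rfl⟩, (hl1 h').trans hl, hx, ?_⟩
        simpa using hx'

/-- **Universality of irreducible Cayley graphs.** -/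
theorem universal (K : Type) [Group K] [Finite K] (S : Set K)
    (hS : Subgroup.closure S = ⊤) (n : ℕ) :
    ∃ (P : Type) (_ : Group P) (_ : Finite P) (H : Set (P × K)),
      IsIrreducibleGeneratingSet H ∧ Prod.snd '' H = S ∧
      ∀ (V : Type) [Finite V] (T : SimpleGraph V), Nat.card V ≤ n → ∀ c : P × K → V,
        (∀ a b, (CayleyGraph H).Adj a b → T.Adj (c a) (c b)) →
        ∃ p : P, ∀ k k' : K, (CayleyGraph S).Adj k k' → T.Adj (c (p, k)) (c (p, k')) := by
  classical
  have : Fintype K := Fintype.ofFinite K
  have : Inhabited K := ⟨1⟩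
  obtain ⟨P, _, _, H, lab, hirr, hlab, hord, hrich⟩ :=
    tower (n ^ Nat.card K) (S.toFinite.toFinset.toList)
  have hmem : ∀ k, k ∈ S.toFinite.toFinset.toList ↔ k ∈ S := by
    intro k
    rw [Finset.mem_toList, Set.Finite.mem_toFinset]
  have hH1 : (1 : P) ∉ H := one_notMem_of_irreducible hirr
  let H' : Set (P × K) := (fun h => (h, lab h)) '' H
  have hk : ∀ k : K, ((1 : P), k) ∈ Subgroup.closure H' := by
    intro k
    have hk : k ∈ Subgroup.closure S := by rw [hS]; trivial
    have hle : Subgroup.closure S ≤ (Subgroup.closure H').comap (MonoidHom.inr P K) := by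
      rw [Subgroup.closure_le]
      intro s hs
      obtain ⟨⟨a, ha, ha1, ha2⟩, b, hb, hb1, hb2⟩ := hord s ((hmem s).2 hs)
      have ma : (a, s) ∈ Subgroup.closure H' :=
        Subgroup.subset_closure ⟨a, ha, by rw [← ha1]⟩
      have mb : (b, s) ∈ Subgroup.closure H' :=
        Subgroup.subset_closure ⟨b, hb, by rw [← hb1]⟩
      have m := Subgroup.mul_mem _ (Subgroup.pow_mem _ mb 3)
        (Subgroup.inv_mem _ (Subgroup.pow_mem _ ma 2))
      have e : ((b, s) : P × K) ^ 3 * (((a, s) : P × K) ^ 2)⁻¹ = (1, s) := by
        rw [Prod.pow_mk, Prod.pow_mk, ha2, hb2]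
        ext
        · simp
        · show s ^ 3 * (s ^ 2)⁻¹ = s
          group
      rw [e] at m
      exact m
    exact hle hk
  have hirr' : IsIrreducibleGeneratingSet H' := by
    constructor
    · rw [eq_top_iff]
      rintro ⟨p, k⟩ -
      have hp : p ∈ Subgroup.closure H := by rw [hirr.1]; trivial
      have hle : Subgroup.closure H ≤ (Subgroup.closure H').comap (MonoidHom.inl P K) := by
        rw [Subgroup.closure_le]
        intro h hh
        have m : (h, lab h) ∈ Subgroup.closure H' := Subgroup.subset_closure ⟨h, hh, rfl⟩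
        have := Subgroup.mul_mem _ m (Subgroup.inv_mem _ (hk (lab h)))
        have e : ((h, lab h) : P × K) * ((1, lab h) : P × K)⁻¹ = (h, 1) := by
          ext <;> simp
        rw [e] at this
        exact this
      have hp' : ((p, 1) : P × K) ∈ Subgroup.closure H' := hle hp
      have := Subgroup.mul_mem _ hp' (hk k)
      simpa using this
    · rintro x ⟨h, hh, rfl⟩ htop
      apply hirr.2 h hh
      have hle : Subgroup.closure (H' \ {(h, lab h)}) ≤
          (Subgroup.closure (H \ {h})).comap (MonoidHom.fst P K) := by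
        rw [Subgroup.closure_le]
        rintro y ⟨⟨h', hh', rfl⟩, hne⟩
        apply Subgroup.subset_closure
        refine ⟨hh', ?_⟩
        intro heq
        apply hne
        have heq' : h' = h := heq
        show (h', lab h') = (h, lab h)
        rw [heq']
      rw [eq_top_iff]
      intro g _
      have : ((g, 1) : P × K) ∈ Subgroup.closure (H' \ {(h, lab h)}) := by
        rw [htop]; trivial
      exact hle this
  refine ⟨P, inferInstance, inferInstance, H', hirr', ?_, ?_⟩
  · ext s
    constructor
    · rintro ⟨x, ⟨h, hh, rfl⟩, rfl⟩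
      exact (hmem _).1 (hlab h hh)
    · intro hs
      obtain ⟨⟨a, ha, ha1, -⟩, -⟩ := hord s ((hmem s).2 hs)
      exact ⟨(a, lab a), ⟨a, ha, rfl⟩, ha1⟩
  · intro V _ T hV c hc
    have : Fintype V := Fintype.ofFinite V
    -- code the functions `K → V` by numbers
    have hcard : Fintype.card (K → V) ≤ n ^ Nat.card K := by
      rw [Fintype.card_fun, Nat.card_eq_fintype_card]
      rw [Nat.card_eq_fintype_card] at hV
      exact Nat.pow_le_pow_left hV _
    obtain ⟨e⟩ : Nonempty ((K → V) ↪ Fin (n ^ Nat.card K)) := by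
      rw [Function.Embedding.nonempty_iff_card_le]
      simpa using hcard
    obtain ⟨t, ⟨x0, hx0⟩, ht⟩ := hrich (fun x => e (fun k => c (x, k)))
    refine ⟨x0, ?_⟩
    have main : ∀ s ∈ S, ∀ k, T.Adj (c (x0, k)) (c (x0, s * k)) := by
      intro s hs k
      obtain ⟨x, h, hh, hl, hx, hx'⟩ := ht s ((hmem s).2 hs)
      have e1 : (fun k => c (x, k)) = fun k => c (x0, k) := e.injective (hx.trans hx0.symm)
      have e2 : (fun k => c (h * x, k)) = fun k => c (x0, k) := e.injective (hx'.trans hx0.symm)
      have := hc (x, k) (h * x, s * k) (by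
        have := adj_mul (one_notMem_of_irreducible hirr')
          (show (h, lab h) ∈ H' from ⟨h, hh, rfl⟩) (x, k)
        rw [hl] at this
        exact this)
      have a1 : c (x, k) = c (x0, k) := congrFun e1 k
      have a2 : c (h * x, s * k) = c (x0, s * k) := congrFun e2 (s * k)
      rw [a1, a2] at this
      exact this
    rintro k k' ⟨-, s, hs, rfl | rfl⟩
    · exact main s hs k
    · exact (main s hs k').symm

end Pool.Agent.KS6_67.Irr
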