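import Mathlib
import Pool.Agent.KS6_67.Irr.Tower
import Pool.Graph.R_pool_sql_team_8f841797.H7.Erdos

/-!
Finite Cayley graphs of every chromatic number `m ≥ 3` without short odd closed walks.
-/

set_option autoImplicit false

namespace Pool.Agent.KS6_67.Irr

open Pool.Agent.Results.MP_696765_co.IrreducibleUnbounded SimpleGraph

/-- The generators inside the subgroup generated by them. -/
def inner {G : Type*} [Group G] (S : Set G) : Set (Subgroup.closure S) := {x | (x : G) ∈ S}

theorem inner_closure {G : Type*} [Group G] (S : Set G) : Subgroup.closure (inner S) = ⊤ :=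
  Subgroup.closure_closure_coe_preimage

/-- A colouring of the component gives a colouring of the whole Cayley graph. -/
theorem extend {G : Type} [CommGroup G] (S : Set G) {V : Type}
    (c : Subgroup.closure S → V)
    (hc : ∀ x y, (CayleyGraph (inner S)).Adj x y → c x ≠ c y) :
    ∃ c' : G → V, ∀ x y, (CayleyGraph S).Adj x y → c' x ≠ c' y := by
  classical
  let K := Subgroup.closure S
  have hrep : ∀ x : G, x * (Quotient.out (QuotientGroup.mk (s := K) x))⁻¹ ∈ K := by
    intro x
    have h := QuotientGroup.out_eq' (QuotientGroup.mk (s := K) x)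
    have h2 : (QuotientGroup.mk (s := K) (Quotient.out (QuotientGroup.mk (s := K) x)) : G ⧸ K) =
      QuotientGroup.mk x := h
    rw [QuotientGroup.eq] at h2
    rwa [mul_comm] at h2
  refine ⟨fun x => c ⟨_, hrep x⟩, ?_⟩
  have key : ∀ x, ∀ s ∈ S, x ≠ s * x → c ⟨_, hrep x⟩ ≠ c ⟨_, hrep (s * x)⟩ := by
    intro x s hs hne
    apply hc
    have hsK : s ∈ K := Subgroup.subset_closure hs
    have hmk : (QuotientGroup.mk (s := K) (s * x) : G ⧸ K) = QuotientGroup.mk x := by
      rw [QuotientGroup.eq]
      have : (s * x)⁻¹ * x = s⁻¹ := by rw [mul_inv_rev, mul_assoc, mul_comm s⁻¹, ← mul_assoc,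
        inv_mul_cancel, one_mul]
      rw [this]
      exact Subgroup.inv_mem _ hsK
    have e : (⟨_, hrep (s * x)⟩ : Subgroup.closure S) = ⟨s, hsK⟩ * ⟨_, hrep x⟩ := by
      apply Subtype.ext
      show s * x * (Quotient.out (QuotientGroup.mk (s := K) (s * x)))⁻¹ =
        s * (x * (Quotient.out (QuotientGroup.mk (s := K) x))⁻¹)
      rw [hmk, mul_assoc]
    refine ⟨?_, ⟨s, hsK⟩, hs, Or.inl e⟩
    intro heq
    rw [e] at heq
    have h1 : (⟨s, hsK⟩ : Subgroup.closure S) = 1 := by
      have := heq.symm
      rwa [mul_eq_right] at this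
    apply hne
    have : s = 1 := congrArg Subtype.val h1
    rw [this, one_mul]
  rintro x y ⟨hne, s, hs, rfl | rfl⟩
  · exact key x s hs hne
  · exact (key y s hs hne.symm).symm

section Construction

variable {N : ℕ} (Γ : SimpleGraph (Fin N)) (m : ℕ)

abbrev Big (N m : ℕ) := Multiplicative ((Fin N → ZMod 2) × ZMod m)

def el {N m : ℕ} (f : Fin N → ZMod 2) (z : ZMod m) : Big N m := Multiplicative.ofAdd (f, z)

def gen : Set (Big N m) :=
  {x | ∃ u v : Fin N, ∃ z : ZMod m, Γ.Adj u v ∧ z ≠ 0 ∧ x = el (Pi.single u 1 + Pi.single v 1) z}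

theorem el_mul {N m : ℕ} (f f' : Fin N → ZMod 2) (z z' : ZMod m) :
    el f z * el f' z' = el (f + f') (z + z') := rfl

theorem one_notMem_gen : (1 : Big N m) ∉ gen Γ m := by
  rintro ⟨u, v, z, -, hz, h⟩
  have : ((1 : Big N m).toAdd).2 = z := by rw [h]; rfl
  exact hz this.symm

/-- The second coordinate is a proper colouring. -/
theorem gen_colorable [NeZero m] : (CayleyGraph (gen Γ m)).Colorable m := by
  let c : (CayleyGraph (gen Γ m)).Coloring (ZMod m) := SimpleGraph.Coloring.mk
    (fun x => (x.toAdd).2) (by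
      have key : ∀ x, ∀ s ∈ gen Γ m, (x.toAdd).2 ≠ ((s * x).toAdd).2 := by
        rintro x s ⟨u, v, z, -, hz, rfl⟩ h
        have : (x.toAdd).2 = z + (x.toAdd).2 := h
        exact hz (by simpa using this)
      rintro x y ⟨-, s, hs, rfl | rfl⟩
      · exact key x s hs
      · exact (key y s hs).symm)
  have := c.colorable
  rwa [ZMod.card] at this

theorem not_colorable (hm : 2 ≤ m) (hΓ : ¬ Γ.Colorable ((m - 1) ^ m)) (V : Type) [Finite V]
    (hV : Nat.card V ≤ m - 1)
    (c : Big N m → V) (hc : ∀ x y, (CayleyGraph (gen Γ m)).Adj x y → c x ≠ c y) : False := by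
  classical
  have : NeZero m := ⟨by omega⟩
  have : Fintype V := Fintype.ofFinite V
  have key : ∃ u v, Γ.Adj u v ∧ (fun z : ZMod m => c (el (Pi.single u 1) z)) =
      fun z => c (el (Pi.single v 1) z) := by
    by_contra hno
    push Not at hno
    apply hΓ
    let c' : Γ.Coloring (ZMod m → V) := SimpleGraph.Coloring.mk
      (fun v z => c (el (Pi.single v 1) z)) (by
        intro u v huv
        exact hno u v huv)
    have h1 := c'.colorable
    refine h1.mono ?_
    rw [Fintype.card_fun, ZMod.card]
    rw [Nat.card_eq_fintype_card] at hV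
    exact Nat.pow_le_pow_left hV _
  obtain ⟨u, v, huv, hf⟩ := key
  have hinj : Function.Injective (fun z : ZMod m => c (el (Pi.single u 1) z)) := by
    intro z z' hzz
    by_contra hne
    have h1 : c (el (Pi.single u 1) z') = c (el (Pi.single v 1) z') := congrFun hf z'
    have hzz' : c (el (Pi.single u 1) z) = c (el (Pi.single u 1) z') := hzz
    have hadj : (CayleyGraph (gen Γ m)).Adj (el (Pi.single u 1) z) (el (Pi.single v 1) z') := by
      have hs : el (Pi.single u 1 + Pi.single v 1) (z' - z) ∈ gen Γ m :=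
        ⟨u, v, z' - z, huv, sub_ne_zero.2 (Ne.symm hne), rfl⟩
      have := adj_mul (one_notMem_gen Γ m) hs (el (Pi.single u 1) z)
      rw [el_mul] at this
      have e : (Pi.single u 1 + Pi.single v 1 + Pi.single u 1 : Fin N → ZMod 2) =
          Pi.single v 1 := by
        have : (Pi.single u 1 + Pi.single u 1 : Fin N → ZMod 2) = 0 := by
          rw [← Pi.single_add]
          have : (1 + 1 : ZMod 2) = 0 := by decide
          rw [this, Pi.single_zero]
        rw [add_right_comm, this, zero_add]
      rw [e, sub_add_cancel] at this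
      exact this
    exact hc _ _ hadj (hzz'.trans h1)
  have := Fintype.card_le_of_injective _ hinj
  rw [ZMod.card] at this
  rw [Nat.card_eq_fintype_card] at hV
  omega

/-- Walks: a set of at most `length` edges such that every `0/1`-function which separates the
ends of these edges counts the steps modulo two. -/
theorem walk_edges {x y : Big N m} (p : (CayleyGraph (gen Γ m)).Walk x y) :
    ∃ F : Finset (Sym2 (Fin N)), F.card ≤ p.length ∧ (∀ e ∈ F, e ∈ Γ.edgeSet) ∧
      ∀ β : Fin N → ZMod 2, (∀ u v, s(u, v) ∈ F → β u + β v = 1) →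
        ∑ i, β i * (y.toAdd).1 i = ∑ i, β i * (x.toAdd).1 i + (p.length : ZMod 2) := by
  classical
  induction p with
  | nil =>
    refine ⟨∅, by simp, by simp, ?_⟩
    intro β _
    simp
  | @cons x x' y hadj p ih =>
    obtain ⟨F, hF, hF2, hF3⟩ := ih
    have hlen : (SimpleGraph.Walk.cons hadj p).length = p.length + 1 :=
      SimpleGraph.Walk.length_cons _ _
    have hadj' := hadj
    obtain ⟨-, s, ⟨u, v, z, huv, hz, rfl⟩, hor⟩ := hadj'
    refine ⟨insert s(u, v) F, ?_, ?_, ?_⟩
    · refine (Finset.card_insert_le _ _).trans ?_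
      omega
    · intro e he
      rcases Finset.mem_insert.1 he with rfl | he
      · exact huv
      · exact hF2 e he
    · intro β hβ
      have h1 := hF3 β (fun u' v' h => hβ u' v' (Finset.mem_insert_of_mem h))
      have h2 : β u + β v = 1 := hβ u v (Finset.mem_insert_self _ _)
      have hsum : ∀ f : Fin N → ZMod 2,
          ∑ i, β i * ((Pi.single u 1 + Pi.single v 1 : Fin N → ZMod 2) + f) i =
            1 + ∑ i, β i * f i := by
        intro f
        simp only [Pi.add_apply, mul_add, Finset.sum_add_distrib, Pi.single_apply, mul_ite,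
          mul_one, mul_zero, Finset.sum_ite_eq', Finset.mem_univ, if_true]
        rw [h2]
      have h3 : ∑ i, β i * (x'.toAdd).1 i = 1 + ∑ i, β i * (x.toAdd).1 i := by
        rcases hor with rfl | rfl
        · exact hsum _
        · have h4 := hsum (x'.toAdd).1
          have h5 : ∑ i, β i * ((el (Pi.single u 1 + Pi.single v 1) z * x' : Big N m).toAdd).1 i =
            1 + ∑ i, β i * (x'.toAdd).1 i := h4
          rw [h5, ← add_assoc]
          have : (1 + 1 : ZMod 2) = 0 := by decide
          rw [this, zero_add]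
      rw [h1, h3, hlen]
      push_cast
      ring

/-- No odd closed walk of length at most `g`, if the girth of `Γ` is larger than `g`. -/
theorem odd_walk (g : ℕ) (hΓ : ((g + 1 : ℕ) : ℕ∞) ≤ Γ.egirth) {x : Big N m}
    (p : (CayleyGraph (gen Γ m)).Walk x x) (hp : Odd p.length) : g < p.length := by
  classical
  by_contra hle
  push Not at hle
  obtain ⟨F, hF, hF2, hF3⟩ := walk_edges Γ m p
  let Δ : SimpleGraph (Fin N) := SimpleGraph.fromEdgeSet (F : Set (Sym2 (Fin N)))
  have hΔ : Δ ≤ Γ := by
    intro a b hab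
    rw [SimpleGraph.fromEdgeSet_adj] at hab
    exact hF2 _ hab.1
  have hacyc : Δ.IsAcyclic := by
    intro v c hc
    have h1 : ((g + 1 : ℕ) : ℕ∞) ≤ (c.mapLe hΔ).length :=
      hΓ.trans (SimpleGraph.egirth_le_length (hc.mapLe hΔ))
    have h2 : c.length ≤ F.card := by
      rw [← SimpleGraph.Walk.length_edges, ← List.toFinset_card_of_nodup hc.edges_nodup]
      apply Finset.card_le_card
      intro e he
      have he' : e ∈ Δ.edgeSet := c.edges_subset_edgeSet (List.mem_toFinset.1 he)
      rw [SimpleGraph.edgeSet_fromEdgeSet] at he'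
      exact he'.1
    have h3 : (c.mapLe hΔ).length = c.length := SimpleGraph.Walk.length_map _ _
    rw [h3] at h1
    have h4 : g + 1 ≤ c.length := by exact_mod_cast h1
    omega
  obtain ⟨b⟩ := hacyc.isBipartite
  have h := hF3 (fun v => ((b v : ℕ) : ZMod 2)) (by
    intro u v huv
    have hadj : Γ.Adj u v := hF2 _ huv
    have hΔadj : Δ.Adj u v := by
      rw [SimpleGraph.fromEdgeSet_adj]
      exact ⟨huv, hadj.ne⟩
    have hne := b.valid hΔadj
    have : ∀ i j : Fin 2, i ≠ j → ((i : ℕ) : ZMod 2) + ((j : ℕ) : ZMod 2) = 1 := by decide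
    exact this _ _ hne)
  have h0 : (p.length : ZMod 2) = 0 := by simpa using h
  rw [ZMod.natCast_eq_zero_iff_even] at h0
  exact (Nat.not_even_iff_odd.2 hp) h0

end Construction

/-- Finite Cayley graphs of chromatic number `m` without odd closed walks of length `≤ g`. -/
theorem exists_cayley (m g : ℕ) (hm : 2 ≤ m) :
    ∃ (K : Type) (_ : Group K) (_ : Finite K) (S : Set K),
      Subgroup.closure S = ⊤ ∧ (1 : K) ∉ S ∧ (CayleyGraph S).Colorable m ∧
      (∀ (V : Type) [Finite V], Nat.card V ≤ m - 1 → ∀ c : K → V,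
        ¬ ∀ x y, (CayleyGraph S).Adj x y → c x ≠ c y) ∧
      ∀ (x : K) (p : (CayleyGraph S).Walk x x), Odd p.length → g < p.length := by
  classical
  have : NeZero m := ⟨by omega⟩
  obtain ⟨N, Γ, hg, hcol⟩ := Pool.Agent.H7.Erdos.exists_girth_chrom (g + 1) ((m - 1) ^ m)
  have hhom : ∀ x y : Subgroup.closure (gen Γ m), (CayleyGraph (inner (gen Γ m))).Adj x y →
      (CayleyGraph (gen Γ m)).Adj x y := by
    rintro x y ⟨hne, s, hs, hor⟩
    refine ⟨fun h => hne (Subtype.ext h), s, hs, ?_⟩
    rcases hor with h | h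
    · exact Or.inl (congrArg Subtype.val h)
    · exact Or.inr (congrArg Subtype.val h)
  let φ : CayleyGraph (inner (gen Γ m)) →g CayleyGraph (gen Γ m) :=
    ⟨fun x => (x : Big N m), fun {x y} h => hhom x y h⟩
  refine ⟨Subgroup.closure (gen Γ m), inferInstance, inferInstance, inner (gen Γ m),
    inner_closure _, ?_, ?_, ?_, ?_⟩
  · intro h
    exact one_notMem_gen Γ m h
  · obtain ⟨c⟩ := gen_colorable Γ m
    exact ⟨c.comp φ⟩
  · intro V _ hV c hc
    obtain ⟨c', hc'⟩ := extend (gen Γ m) c hc
    exact not_colorable Γ m hm hcol V hV c' hc'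
  · intro x p hp
    have := odd_walk Γ m g hg (p.map φ) (by rw [SimpleGraph.Walk.length_map]; exact hp)
    rwa [SimpleGraph.Walk.length_map] at this

end Pool.Agent.KS6_67.Irr
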