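import Mathlib
import Pool.Agent.KS6_67.Irr.Odd

/-!
Irreducible generating sets whose Cayley graph has a prescribed finite chromatic number and large
odd girth, for finite groups and for groups of every infinite cardinality.
-/

set_option autoImplicit false

namespace Pool.Agent.KS6_67.Irr

open Pool.Agent.Results.MP_696765_co.IrreducibleUnbounded SimpleGraph Cardinal

theorem chrom_eq {V : Type*} {G : SimpleGraph V} {m : ℕ} (hm : 1 ≤ m) (h1 : G.Colorable m)
    (h2 : ¬ G.Colorable (m - 1)) : G.chromaticNumber = m := by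
  obtain ⟨k, rfl⟩ : ∃ k, m = k + 1 := ⟨m - 1, by omega⟩
  rw [Nat.add_sub_cancel] at h2
  have := (SimpleGraph.chromaticNumber_eq_iff_colorable_not_colorable (G := G) (n := k)).2
    ⟨h1, h2⟩
  rw [this]
  norm_cast

theorem finite_spectrum (m g : ℕ) (hm : 2 ≤ m) :
    ∃ (G : Type) (_ : Group G) (_ : Finite G) (H : Set G),
      IsIrreducibleGeneratingSet H ∧ (CayleyGraph H).chromaticNumber = m ∧
      ∀ (x : G) (p : (CayleyGraph H).Walk x x), Odd p.length → g < p.length := by
  classical
  obtain ⟨K, _, _, S, hS, hS1, hcol, hnot, hodd⟩ := exists_cayley m g hm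
  obtain ⟨P, _, _, H, hirr, hHS, huniv⟩ := universal K S hS (m - 1)
  have hH1 := one_notMem_of_irreducible hirr
  have hmem : ∀ h ∈ H, h.2 ∈ S := by
    intro h hh
    rw [← hHS]
    exact ⟨h, hh, rfl⟩
  let φ : CayleyGraph H →g CayleyGraph S := ⟨fun x => x.2, by
    rintro x y ⟨hne, h, hh, rfl | rfl⟩
    · exact adj_mul hS1 (hmem h hh) x.2
    · exact (adj_mul hS1 (hmem h hh) y.2).symm⟩
  refine ⟨P × K, inferInstance, inferInstance, H, hirr, chrom_eq (by omega) ?_ ?_, ?_⟩
  · obtain ⟨c⟩ := hcol
    exact ⟨c.comp φ⟩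
  · rintro ⟨c⟩
    obtain ⟨p, hp⟩ := huniv (Fin (m - 1)) ⊤ (by simp) c (fun a b hab => c.map_adj hab)
    apply hnot (Fin (m - 1)) (by simp) (fun k => c (p, k))
    intro x y hxy
    exact (hp x y hxy)
  · intro x p hp
    have := hodd _ (p.map φ) (by rw [SimpleGraph.Walk.length_map]; exact hp)
    rwa [SimpleGraph.Walk.length_map] at this

section Infinite

variable (ι : Type)

/-- The elementary abelian `2`-group with basis `ι`. -/
abbrev Two := Multiplicative (ι →₀ ZMod 2)

/-- Its basis. -/
def basis : Set (Two ι) := Set.range fun i => Multiplicative.ofAdd (Finsupp.single i 1)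

theorem basis_irred : IsIrreducibleGeneratingSet (basis ι) := by
  classical
  constructor
  · rw [eq_top_iff]
    have h : ∀ f : ι →₀ ZMod 2, (Multiplicative.ofAdd f : Two ι) ∈
        Subgroup.closure (basis ι) := by
      intro f
      induction f using Finsupp.induction_linear with
      | zero => exact Subgroup.one_mem _
      | add f f' hf hf' => exact Subgroup.mul_mem _ hf hf'
      | single i b =>
        have hb : ∀ b : ZMod 2, b = 0 ∨ b = 1 := by decide
        rcases hb b with rfl | rfl
        · rw [Finsupp.single_zero]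
          exact Subgroup.one_mem _
        · exact Subgroup.subset_closure ⟨i, rfl⟩
    intro x _
    exact h (Multiplicative.toAdd x)
  · rintro x ⟨i, rfl⟩ htop
    have hle : Subgroup.closure (basis ι \ {Multiplicative.ofAdd (Finsupp.single i 1)}) ≤
        ((Finsupp.applyAddHom i : (ι →₀ ZMod 2) →+ ZMod 2).toMultiplicative).ker := by
      rw [Subgroup.closure_le]
      rintro y ⟨⟨j, rfl⟩, hne⟩
      have hij : j ≠ i := by
        rintro rfl
        exact hne rfl
      show (Finsupp.single j (1 : ZMod 2)) i = 0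
      exact Finsupp.single_eq_of_ne' hij
    have htop' : Subgroup.closure (basis ι \ {Multiplicative.ofAdd (Finsupp.single i 1)}) = ⊤ :=
      htop
    rw [htop'] at hle
    have h1 : (Finsupp.single i (1 : ZMod 2)) i = 0 :=
      hle (Subgroup.mem_top (Multiplicative.ofAdd (Finsupp.single i (1 : ZMod 2)) : Two ι))
    rw [Finsupp.single_eq_same] at h1
    exact absurd h1 (by decide)

/-- The parity of the number of coordinates equal to one. -/
noncomputable def par : (ι →₀ ZMod 2) →+ ZMod 2 :=
  Finsupp.liftAddHom fun _ => AddMonoidHom.id (ZMod 2)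

theorem par_single (i : ι) : par ι (Finsupp.single i 1) = 1 := by
  simp [par]

variable {ι} {G : Type} [Group G] {H : Set G}

theorem adj_cases (hH1 : (1 : G) ∉ H) {x y : G × Two ι}
    (h : (CayleyGraph (prodSet H (basis ι))).Adj x y) :
    ((CayleyGraph H).Adj x.1 y.1 ∧ x.2 = y.2) ∨
      (x.1 = y.1 ∧ par ι (Multiplicative.toAdd y.2) = par ι (Multiplicative.toAdd x.2) + 1) := by
  have key : ∀ x : G × Two ι, ∀ s ∈ prodSet H (basis ι),
      ((CayleyGraph H).Adj x.1 (s * x).1 ∧ x.2 = (s * x).2) ∨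
      (x.1 = (s * x).1 ∧ par ι (Multiplicative.toAdd (s * x).2) =
        par ι (Multiplicative.toAdd x.2) + 1) := by
    rintro x s (⟨h, hh, rfl⟩ | ⟨t, ⟨i, rfl⟩, rfl⟩)
    · left
      refine ⟨adj_mul hH1 hh x.1, ?_⟩
      show x.2 = 1 * x.2
      rw [one_mul]
    · right
      constructor
      · show x.1 = 1 * x.1
        rw [one_mul]
      · show par ι (Finsupp.single i 1 + Multiplicative.toAdd x.2) = _
        rw [map_add, par_single, add_comm]
  obtain ⟨-, s, hs, rfl | rfl⟩ := h
  · exact key x s hs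
  · rcases key y s hs with ⟨h1, h2⟩ | ⟨h1, h2⟩
    · exact Or.inl ⟨h1.symm, h2.symm⟩
    · refine Or.inr ⟨h1.symm, ?_⟩
      rw [h2, add_assoc]
      have : (1 + 1 : ZMod 2) = 0 := by decide
      rw [this, add_zero]

theorem prod_colorable (hH1 : (1 : G) ∉ H) {m : ℕ} (hm : 2 ≤ m)
    (h : (CayleyGraph H).Colorable m) : (CayleyGraph (prodSet H (basis ι))).Colorable m := by
  classical
  have : NeZero m := ⟨by omega⟩
  have : Fact (1 < m) := ⟨hm⟩
  have hc : Fintype.card (ZMod m) = m := ZMod.card m
  let c : (CayleyGraph H).Coloring (ZMod m) := h.toColoring hc.ge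
  let c' : (CayleyGraph (prodSet H (basis ι))).Coloring (ZMod m) := SimpleGraph.Coloring.mk
    (fun x => c x.1 + if par ι (Multiplicative.toAdd x.2) = 0 then 0 else 1) (by
      intro x y hxy heq
      rcases adj_cases hH1 hxy with ⟨h1, h2⟩ | ⟨h1, h2⟩
      · rw [h2] at heq
        exact c.valid h1 (add_right_cancel heq)
      · rw [h1, h2] at heq
        have heq' := add_left_cancel heq
        have hb : ∀ b : ZMod 2, b = 0 ∨ b = 1 := by decide
        rcases hb (par ι (Multiplicative.toAdd x.2)) with hb | hb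
        · rw [hb, if_pos rfl, zero_add, if_neg (by decide)] at heq'
          exact zero_ne_one heq'
        · rw [hb, if_neg (by decide), if_pos (by decide)] at heq'
          exact one_ne_zero heq')
  have := c'.colorable
  rwa [hc] at this

theorem colorable_of_prod {n : ℕ}
    (h : (CayleyGraph (prodSet H (basis ι))).Colorable n) : (CayleyGraph H).Colorable n := by
  obtain ⟨c⟩ := h
  refine ⟨c.comp ⟨fun x => (x, 1), ?_⟩⟩
  rintro x y ⟨hne, h, hh, rfl | rfl⟩
  · refine ⟨fun e => hne (congrArg Prod.fst e), (h, 1), Or.inl ⟨h, hh, rfl⟩, Or.inl ?_⟩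
    rw [Prod.mk_mul_mk, mul_one]
  · refine ⟨fun e => hne (congrArg Prod.fst e), (h, 1), Or.inl ⟨h, hh, rfl⟩, Or.inr ?_⟩
    rw [Prod.mk_mul_mk, mul_one]

theorem walk_proj (hH1 : (1 : G) ∉ H) {x y : G × Two ι}
    (p : (CayleyGraph (prodSet H (basis ι))).Walk x y) :
    ∃ q : (CayleyGraph H).Walk x.1 y.1, q.length ≤ p.length ∧
      (p.length : ZMod 2) = (q.length : ZMod 2) + par ι (Multiplicative.toAdd x.2) +
        par ι (Multiplicative.toAdd y.2) := by
  have two : ∀ b : ZMod 2, b + b = 0 := by decide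
  induction p with
  | nil =>
    refine ⟨SimpleGraph.Walk.nil, by simp, ?_⟩
    simp only [SimpleGraph.Walk.length_nil, Nat.cast_zero, zero_add, two]
  | @cons x x' y hadj p ih =>
    obtain ⟨q, hq1, hq2⟩ := ih
    have hlen : (SimpleGraph.Walk.cons hadj p).length = p.length + 1 :=
      SimpleGraph.Walk.length_cons _ _
    rcases adj_cases hH1 hadj with ⟨h1, h2⟩ | ⟨h1, h2⟩
    · refine ⟨SimpleGraph.Walk.cons h1 q, ?_, ?_⟩
      · rw [hlen, SimpleGraph.Walk.length_cons]
        omega
      · rw [hlen, SimpleGraph.Walk.length_cons, h2]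
        push_cast
        rw [hq2]
        ring
    · refine ⟨q.copy h1.symm rfl, ?_, ?_⟩
      · rw [hlen, SimpleGraph.Walk.length_copy]
        omega
      · rw [hlen, SimpleGraph.Walk.length_copy]
        push_cast
        rw [hq2, h2]
        have := two 1
        linear_combination this

end Infinite

theorem infinite_spectrum (κ : Cardinal.{0}) (hκ : ℵ₀ ≤ κ) (m g : ℕ) (hm : 2 ≤ m) :
    ∃ (G : Type) (_ : Group G) (H : Set G),
      #G = κ ∧ IsIrreducibleGeneratingSet H ∧ (CayleyGraph H).chromaticNumber = m ∧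
      ∀ (x : G) (p : (CayleyGraph H).Walk x x), Odd p.length → g < p.length := by
  classical
  obtain ⟨G, _, _, H, hirr, hchrom, hodd⟩ := finite_spectrum m g hm
  have hH1 := one_notMem_of_irreducible hirr
  obtain ⟨ι, rfl⟩ : ∃ ι : Type, #ι = κ := ⟨κ.out, Cardinal.mk_out κ⟩
  have : Infinite ι := Cardinal.aleph0_le_mk_iff.1 hκ
  refine ⟨G × Two ι, inferInstance, prodSet H (basis ι), ?_, prod_irred hirr (basis_irred ι),
    chrom_eq (by omega) ?_ ?_, ?_⟩
  · have h1 : #(Two ι) = #ι := by
      have : #(ι →₀ ZMod 2) = max #ι #(ZMod 2) := Cardinal.mk_finsupp_of_infinite ι (ZMod 2)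
      have h2 : #(ZMod 2) ≤ #ι :=
        ((Cardinal.mk_lt_aleph0 (α := ZMod 2)).le).trans hκ
      rw [max_eq_left h2] at this
      exact this
    rw [Cardinal.mk_prod, Cardinal.lift_id, Cardinal.lift_id, h1]
    exact Cardinal.mul_eq_right hκ ((Cardinal.mk_lt_aleph0 (α := G)).le.trans hκ)
      (Cardinal.mk_ne_zero G)
  · exact prod_colorable hH1 hm (SimpleGraph.chromaticNumber_le_iff_colorable.1 hchrom.le)
  · intro h
    have h1 := colorable_of_prod h
    have h2 := h1.chromaticNumber_le
    rw [hchrom] at h2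
    have : m ≤ m - 1 := by exact_mod_cast h2
    omega
  · intro x p hp
    obtain ⟨q, hq1, hq2⟩ := walk_proj hH1 p
    have two : ∀ b : ZMod 2, b + b = 0 := by decide
    rw [add_assoc, two, add_zero] at hq2
    have hqo : Odd q.length := by
      rw [← Nat.not_even_iff_odd] at hp ⊢
      rw [← ZMod.natCast_eq_zero_iff_even] at hp ⊢
      rwa [← hq2]
    exact (hodd _ q hqo).trans_le hq1

end Pool.Agent.KS6_67.Irr
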